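import Pool.Agent.Helper66.PD.Deg

/-!
# Posets of large dimension with cover graph of maximum degree 4 and small path-width

Path-width `4 * k + 1`, maximum degree `4`, height `(2 * k - 1) * n + 2`, dimension at least `n ^ k`.
-/

set_option autoImplicit false

namespace Pool.Agent.Helper23.ND

open Pool.Agent.Helper66.PD (cov HeightLE PathWidthLE DimLE DegreeLE)

/-- elements: pairs `X a`, `Y a`; `R true j B`, `L true j B`: up rails of level `j` (to the right, to
the left), block `B` (the block of level `j` of the address `a` is `a / n ^ j`); `L false j B`,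
`R false j B`: down rails of level `j` (to the right, to the left) -/
inductive V : Type
  | X (a : ℕ) : V
  | Y (a : ℕ) : V
  | R (s : Bool) (j B : ℕ) : V
  | L (s : Bool) (j B : ℕ) : V

namespace V

/-- admissible elements -/
def ok (k n : ℕ) : V → Prop
  | X a => a < n ^ k
  | Y a => a < n ^ k
  | R _ j B => j < k ∧ B < n ^ (k - j)
  | L _ j B => j < k ∧ B < n ^ (k - j)

/-- the edges -/
inductive E (n : ℕ) : V → V → Prop
  | xr (a : ℕ) : E n (X a) (R true 0 a)
  | xl (a : ℕ) : E n (X a) (L true 0 a)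
  | rr (j B : ℕ) (hB : (B + 1) / n = B / n) : E n (R true j B) (R true j (B + 1))
  | ll (j B : ℕ) (hB : (B + 1) / n = B / n) : E n (L true j (B + 1)) (L true j B)
  | ru (j B : ℕ) (hB : B % n + 1 = n) : E n (R true j B) (R true (j + 1) (B / n))
  | lu (j B : ℕ) (hB : B % n = 0) : E n (L true j B) (L true (j + 1) (B / n))
  | rp (j B : ℕ) (hB : (B + 1) / n = B / n) : E n (R true j B) (L false j (B + 1))
  | lq (j B : ℕ) (hB : (B + 1) / n = B / n) : E n (L true j (B + 1)) (R false j B)
  | pp (j B : ℕ) (hB : (B + 1) / n = B / n) : E n (L false j B) (L false j (B + 1))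
  | qq (j B : ℕ) (hB : (B + 1) / n = B / n) : E n (R false j (B + 1)) (R false j B)
  | pd (j B : ℕ) (hB : B % n = 0) : E n (L false (j + 1) (B / n)) (L false j B)
  | qd (j B : ℕ) (hB : B % n + 1 = n) : E n (R false (j + 1) (B / n)) (R false j B)
  | py (a : ℕ) : E n (L false 0 a) (Y a)
  | qy (a : ℕ) : E n (R false 0 a) (Y a)

/-- edges between admissible elements -/
def EE (k n : ℕ) (u v : V) : Prop := E n u v ∧ ok k n u ∧ ok k n v

/-- the rank -/
def rk (k n : ℕ) : V → ℕ
  | X _ => 0
  | Y _ => (2 * k - 1) * n + 1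
  | R true j B => 1 + j * n + B % n
  | L true j B => 1 + j * n + (n - 1 - B % n)
  | L false j B => 1 + (2 * k - 2 - j) * n + B % n
  | R false j B => 1 + (2 * k - 2 - j) * n + (n - 1 - B % n)

theorem mod_succ {n B : ℕ} (h : (B + 1) / n = B / n) : (B + 1) % n = B % n + 1 := by
  have h1 := Nat.div_add_mod (B + 1) n
  have h2 := Nat.div_add_mod B n
  rw [h] at h1
  omega

theorem n_pos {k n j B : ℕ} (h : j < k ∧ B < n ^ (k - j)) : 0 < n := by
  rcases Nat.eq_zero_or_pos n with h0 | h0
  · exfalso
    subst h0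
    obtain ⟨h4, h5⟩ := h
    rw [Nat.zero_pow (by omega)] at h5
    omega
  · exact h0

theorem rk_EE {k n : ℕ} (u v : V) (h : EE k n u v) : rk k n u < rk k n v := by
  obtain ⟨hE, hu, hv⟩ := h
  cases hE with
  | xr a => simp only [rk]; omega
  | xl a => simp only [rk]; omega
  | rr j B hB =>
    have h1 := mod_succ hB
    simp only [rk]
    omega
  | ll j B hB =>
    have hn := n_pos hu
    have h1 := mod_succ hB
    have h2 := Nat.mod_lt (B + 1) hn
    simp only [rk]
    omega
  | ru j B hB =>
    have h3 : (j + 1) * n = j * n + n := by ring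
    simp only [rk]
    rw [h3]
    omega
  | lu j B hB =>
    have hn := n_pos hu
    have h3 : (j + 1) * n = j * n + n := by ring
    simp only [rk]
    rw [h3]
    omega
  | rp j B hB =>
    have h1 := mod_succ hB
    have hj := hu.1
    have h3 : j * n ≤ (2 * k - 2 - j) * n := Nat.mul_le_mul_right n (by omega)
    simp only [rk]
    omega
  | lq j B hB =>
    have hn := n_pos hu
    have h1 := mod_succ hB
    have h2 := Nat.mod_lt (B + 1) hn
    have hj := hu.1
    have h3 : j * n ≤ (2 * k - 2 - j) * n := Nat.mul_le_mul_right n (by omega)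
    simp only [rk]
    omega
  | pp j B hB =>
    have h1 := mod_succ hB
    simp only [rk]
    omega
  | qq j B hB =>
    have hn := n_pos hu
    have h1 := mod_succ hB
    have h2 := Nat.mod_lt (B + 1) hn
    simp only [rk]
    omega
  | pd j B hB =>
    have hn := n_pos hu
    have h2 := Nat.mod_lt (B / n) hn
    have hj := hu.1
    have h3 : (2 * k - 2 - j) * n = (2 * k - 2 - (j + 1)) * n + n := by
      rw [show 2 * k - 2 - j = (2 * k - 2 - (j + 1)) + 1 by omega]; ring
    simp only [rk]
    rw [h3]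
    omega
  | qd j B hB =>
    have hn := n_pos hu
    have hj := hu.1
    have h3 : (2 * k - 2 - j) * n = (2 * k - 2 - (j + 1)) * n + n := by
      rw [show 2 * k - 2 - j = (2 * k - 2 - (j + 1)) + 1 by omega]; ring
    simp only [rk]
    rw [h3]
    omega
  | py a =>
    have hn := n_pos hu
    have h2 := Nat.mod_lt a hn
    have hj := hu.1
    have h3 : (2 * k - 1) * n = (2 * k - 2 - 0) * n + n := by
      rw [show 2 * k - 1 = (2 * k - 2 - 0) + 1 by omega]; ring
    simp only [rk]
    rw [h3]
    omega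
  | qy a =>
    have hn := n_pos hu
    have hj := hu.1
    have h3 : (2 * k - 1) * n = (2 * k - 2 - 0) * n + n := by
      rw [show 2 * k - 1 = (2 * k - 2 - 0) + 1 by omega]; ring
    simp only [rk]
    rw [h3]
    omega

theorem rk_le {k n : ℕ} (u v : V) (h : Relation.ReflTransGen (EE k n) u v) :
    rk k n u ≤ rk k n v := by
  induction h with
  | refl => exact le_rfl
  | tail _ h ih => exact ih.trans (rk_EE _ _ h).le

theorem rk_lt {k n : ℕ} (u v : V) (h : Relation.ReflTransGen (EE k n) u v) (hne : u ≠ v) :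
    rk k n u < rk k n v := by
  rcases Relation.ReflTransGen.cases_tail h with h1 | ⟨w, h1, h2⟩
  · exact absurd h1.symm hne
  · exact lt_of_le_of_lt (rk_le _ _ h1) (rk_EE _ _ h2)

theorem rk_top {k n : ℕ} (u : V) (h : ok k n u) : rk k n u < (2 * k - 1) * n + 2 := by
  cases u with
  | X a => simp only [rk]; omega
  | Y a => simp only [rk]; omega
  | R s j B =>
    have hn := n_pos h
    have h2 := Nat.mod_lt B hn
    have hj := h.1
    have h3 : j * n ≤ (2 * k - 2) * n := Nat.mul_le_mul_right n (by omega)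
    have h5 : (2 * k - 2 - j) * n ≤ (2 * k - 2) * n := Nat.mul_le_mul_right n (by omega)
    have h4 : (2 * k - 1) * n = (2 * k - 2) * n + n := by
      rw [show 2 * k - 1 = (2 * k - 2) + 1 by omega]; ring
    cases s <;> simp only [rk] <;> omega
  | L s j B =>
    have hn := n_pos h
    have h2 := Nat.mod_lt B hn
    have hj := h.1
    have h3 : j * n ≤ (2 * k - 2) * n := Nat.mul_le_mul_right n (by omega)
    have h5 : (2 * k - 2 - j) * n ≤ (2 * k - 2) * n := Nat.mul_le_mul_right n (by omega)
    have h4 : (2 * k - 1) * n = (2 * k - 2) * n + n := by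
      rw [show 2 * k - 1 = (2 * k - 2) + 1 by omega]; ring
    cases s <;> simp only [rk] <;> omega

end V

/-- the nested Kelly poset with down rails -/
def Kel (k n : ℕ) : Type := {u : V // V.ok k n u}

namespace Kel

open V

variable {k n : ℕ}

instance instPO : PartialOrder (Kel k n) where
  le u v := Relation.ReflTransGen (EE k n) u.1 v.1
  le_refl u := Relation.ReflTransGen.refl
  le_trans u v w h1 h2 := Relation.ReflTransGen.trans h1 h2
  le_antisymm u v h1 h2 := by
    by_contra hne
    have hne' : u.1 ≠ v.1 := fun h => hne (Subtype.ext h)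
    have a1 := V.rk_lt u.1 v.1 h1 hne'
    have a2 := V.rk_lt v.1 u.1 h2 (Ne.symm hne')
    omega

theorem le_def (u v : Kel k n) : u ≤ v ↔ Relation.ReflTransGen (EE k n) u.1 v.1 := Iff.rfl

/-- covers are edges -/
theorem cov_EE (u v : Kel k n) (h : u ⋖ v) : EE k n u.1 v.1 := by
  rcases Relation.ReflTransGen.cases_tail ((le_def _ _).1 h.le) with h1 | ⟨w, h1, h2⟩
  · exact absurd (Subtype.ext h1.symm) h.ne
  · by_cases h3 : u.1 = w
    · rw [h3]; exact h2
    · exfalso
      have h4 : w ≠ v.1 := by
        intro h5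
        have := rk_EE _ _ h2
        rw [h5] at this
        exact lt_irrefl _ this
      have h5 : ∃ w' : Kel k n, w'.1 = w := ⟨⟨w, h2.2.1⟩, rfl⟩
      obtain ⟨w', rfl⟩ := h5
      have h6 : u ≤ w' := h1
      have h7 : w' ≤ v := Relation.ReflTransGen.single h2
      exact h.2 (lt_of_le_of_ne h6 fun h => h3 (congrArg Subtype.val h))
        (lt_of_le_of_ne h7 fun h => h4 (congrArg Subtype.val h))

theorem adj_EE (u v : Kel k n) (h : (cov (Kel k n)).Adj u v) :
    EE k n u.1 v.1 ∨ EE k n v.1 u.1 := by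
  unfold cov at h
  rw [SimpleGraph.fromRel_adj] at h
  exact h.2.imp (cov_EE _ _) (cov_EE _ _)

theorem height : HeightLE (Kel k n) ((2 * k - 1) * n + 2) := by
  intro s hs
  have h1 : s.card ≤ (Finset.range ((2 * k - 1) * n + 2)).card := by
    apply Finset.card_le_card_of_injOn (fun u : Kel k n => rk k n u.1)
    · intro u _
      exact Finset.mem_coe.2 (Finset.mem_range.2 (rk_top u.1 u.2))
    · intro u hu v hv huv
      by_contra hne
      have hne' : u.1 ≠ v.1 := fun h => hne (Subtype.ext h)
      have huv' : rk k n u.1 = rk k n v.1 := huv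
      rcases hs hu hv hne with h2 | h2
      · have := V.rk_lt u.1 v.1 h2 hne'
        omega
      · have := V.rk_lt v.1 u.1 h2 (Ne.symm hne')
        omega
  rwa [Finset.card_range] at h1

/-! ### finiteness -/

/-- code -/
def code : V → Fin 4 × Bool × ℕ × ℕ
  | X a => (0, true, 0, a)
  | Y a => (1, true, 0, a)
  | R s j B => (2, s, j, B)
  | L s j B => (3, s, j, B)

theorem code_inj : Function.Injective code := by
  intro u v h
  cases u <;> cases v <;> simp_all [code]

theorem pow_le (i : ℕ) (hn : 0 < n) : n ^ (k - i) ≤ n ^ k := Nat.pow_le_pow_right hn (Nat.sub_le _ _)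

instance instFin : Finite (Kel k n) := by
  have h1 : ∀ u : Kel k n, (code u.1).2.2.1 < k + 1 ∧ (code u.1).2.2.2 < n ^ k + 1 := by
    rintro ⟨u, hu⟩
    cases u with
    | X a =>
      have h : a < n ^ k := hu
      simp only [code]; omega
    | Y a =>
      have h : a < n ^ k := hu
      simp only [code]; omega
    | R s j B =>
      have hn := n_pos hu
      have h2 := pow_le (k := k) j hn
      obtain ⟨h4, h5⟩ := hu
      simp only [code]; omega
    | L s j B =>
      have hn := n_pos hu
      have h2 := pow_le (k := k) j hn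
      obtain ⟨h4, h5⟩ := hu
      simp only [code]; omega
  refine Finite.of_injective (β := Fin 4 × Bool × Fin (k + 1) × Fin (n ^ k + 1))
    (fun u : Kel k n => ((code u.1).1, (code u.1).2.1, ⟨_, (h1 u).1⟩, ⟨_, (h1 u).2⟩)) ?_
  intro u v huv
  simp only [Prod.mk.injEq, Fin.mk.injEq] at huv
  obtain ⟨e1, e2, e3, e4⟩ := huv
  exact Subtype.ext (code_inj (Prod.ext e1 (Prod.ext e2 (Prod.ext e3 e4))))

noncomputable instance instFT : Fintype (Kel k n) := Fintype.ofFinite _

/-! ### the order between the pairs -/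

/-- an up-set which contains `X a` and not `Y a` -/
def Up (n a : ℕ) : V → Prop
  | X b => b = a
  | Y b => b ≠ a
  | R true j B => a / n ^ (j + 1) = B / n ∧ a / n ^ j ≤ B
  | L true j B => a / n ^ (j + 1) = B / n ∧ B ≤ a / n ^ j
  | L false j B => ¬ (a / n ^ (j + 1) = B / n ∧ B ≤ a / n ^ j)
  | R false j B => ¬ (a / n ^ (j + 1) = B / n ∧ a / n ^ j ≤ B)

theorem div_pow_succ (a j : ℕ) : a / n ^ (j + 1) = a / n ^ j / n := by
  rw [pow_succ, Nat.div_div_eq_div_mul]

theorem up_E (a : ℕ) (u v : V) (h : E n u v) (hu : Up n a u) : Up n a v := by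
  cases h with
  | xr b =>
    have h1 : b = a := hu
    subst h1
    exact ⟨by simp, by simp⟩
  | xl b =>
    have h1 : b = a := hu
    subst h1
    exact ⟨by simp, by simp⟩
  | rr j B hB => exact ⟨hu.1.trans hB.symm, hu.2.trans (Nat.le_succ _)⟩
  | ll j B hB => exact ⟨hu.1.trans hB, (Nat.le_succ _).trans hu.2⟩
  | ru j B hB =>
    refine ⟨?_, hu.1.le⟩
    rw [div_pow_succ, hu.1]
  | lu j B hB =>
    refine ⟨?_, hu.1.ge⟩
    rw [div_pow_succ, hu.1]
  | rp j B hB =>
    intro h1
    have h2 : a / n ^ j ≤ B := hu.2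
    have h3 : B + 1 ≤ a / n ^ j := h1.2
    omega
  | lq j B hB =>
    intro h1
    have h2 : B + 1 ≤ a / n ^ j := hu.2
    have h3 : a / n ^ j ≤ B := h1.2
    omega
  | pp j B hB =>
    intro h1
    exact hu ⟨h1.1.trans hB, (Nat.le_succ _).trans h1.2⟩
  | qq j B hB =>
    intro h1
    exact hu ⟨h1.1.trans hB.symm, h1.2.trans (Nat.le_succ _)⟩
  | pd j B hB =>
    intro h1
    refine hu ⟨?_, h1.1.ge⟩
    rw [div_pow_succ, h1.1]
  | qd j B hB =>
    intro h1
    refine hu ⟨?_, h1.1.le⟩
    rw [div_pow_succ, h1.1]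
  | py b =>
    intro h1
    subst h1
    exact hu ⟨by simp, by simp⟩
  | qy b =>
    intro h1
    subst h1
    exact hu ⟨by simp, by simp⟩

theorem up_le (a : ℕ) (u v : V) (h : Relation.ReflTransGen (EE k n) u v) (hu : Up n a u) :
    Up n a v := by
  induction h with
  | refl => exact hu
  | tail _ h ih => exact up_E a _ _ h.1 ih

theorem ok_block {a j B : ℕ} (ha : a < n ^ k) (hj : j < k) (hn : 0 < n)
    (h : a / n ^ (j + 1) = B / n) : j < k ∧ B < n ^ (k - j) := by
  refine ⟨hj, ?_⟩
  have h1 : a / n ^ (j + 1) < n ^ (k - j - 1) := by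
    rw [Nat.div_lt_iff_lt_mul (Nat.pow_pos hn), ← pow_add]
    rwa [show k - j - 1 + (j + 1) = k by omega]
  rw [h, Nat.div_lt_iff_lt_mul hn, ← pow_succ] at h1
  rwa [show k - j - 1 + 1 = k - j by omega] at h1

/-- monotone rails -/
theorem rail (f : ℕ → ℕ → V) (hf : ∀ j B, ok k n (f j B) ↔ j < k ∧ B < n ^ (k - j))
    (hE : ∀ j B, (B + 1) / n = B / n → E n (f j B) (f j (B + 1)))
    (j : ℕ) {a : ℕ} (ha : a < n ^ k) (hj : j < k) (hn : 0 < n) :
    ∀ (t B : ℕ), a / n ^ (j + 1) = B / n → a / n ^ (j + 1) = (B + t) / n →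
      Relation.ReflTransGen (EE k n) (f j B) (f j (B + t)) := by
  intro t
  induction t with
  | zero => intro B _ _; exact Relation.ReflTransGen.refl
  | succ t ih =>
    intro B h1 h2
    have h3 : a / n ^ (j + 1) = (B + t) / n := by
      apply le_antisymm
      · rw [h1]; exact Nat.div_le_div_right (Nat.le_add_right _ _)
      · rw [h2]; exact Nat.div_le_div_right (by omega)
    refine Relation.ReflTransGen.tail (ih B h1 h3)
      ⟨?_, (hf _ _).2 (ok_block ha hj hn h3), (hf _ _).2 (ok_block ha hj hn h2)⟩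
    exact hE j (B + t) (h2.symm.trans h3)

/-- antitone rails -/
theorem rail' (f : ℕ → ℕ → V) (hf : ∀ j B, ok k n (f j B) ↔ j < k ∧ B < n ^ (k - j))
    (hE : ∀ j B, (B + 1) / n = B / n → E n (f j (B + 1)) (f j B))
    (j : ℕ) {a : ℕ} (ha : a < n ^ k) (hj : j < k) (hn : 0 < n) :
    ∀ (t B : ℕ), a / n ^ (j + 1) = B / n → a / n ^ (j + 1) = (B + t) / n →
      Relation.ReflTransGen (EE k n) (f j (B + t)) (f j B) := by
  intro t
  induction t with
  | zero => intro B _ _; exact Relation.ReflTransGen.refl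
  | succ t ih =>
    intro B h1 h2
    have h3 : a / n ^ (j + 1) = (B + t) / n := by
      apply le_antisymm
      · rw [h1]; exact Nat.div_le_div_right (Nat.le_add_right _ _)
      · rw [h2]; exact Nat.div_le_div_right (by omega)
    have h4 : EE k n (f j (B + t + 1)) (f j (B + t)) :=
      ⟨hE j (B + t) (h2.symm.trans h3), (hf _ _).2 (ok_block ha hj hn h2),
        (hf _ _).2 (ok_block ha hj hn h3)⟩
    exact Relation.ReflTransGen.head h4 (ih B h1 h3)

theorem okR (s : Bool) (j B : ℕ) : ok k n (R s j B) ↔ j < k ∧ B < n ^ (k - j) := Iff.rfl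

theorem okL (s : Bool) (j B : ℕ) : ok k n (L s j B) ↔ j < k ∧ B < n ^ (k - j) := Iff.rfl

/-- data of the last block of a superblock -/
theorem last_block (hn : 0 < n) (p : ℕ) : (p + (n - 1 - p % n)) / n = p / n ∧
    (p + (n - 1 - p % n)) % n + 1 = n := by
  have h1 := Nat.div_add_mod p n
  have h2 := Nat.mod_lt p hn
  have h3 : (p + (n - 1 - p % n)) = n * (p / n) + (n - 1) := by omega
  constructor
  · rw [h3, Nat.mul_add_div hn, Nat.div_eq_of_lt (show n - 1 < n by omega), Nat.add_zero]
  · rw [h3, Nat.mul_add_mod, Nat.mod_eq_of_lt (show n - 1 < n by omega)]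
    omega

/-- data of the first block of a superblock -/
theorem first_block (hn : 0 < n) (p : ℕ) : (p / n * n) / n = p / n ∧ (p / n * n) % n = 0 ∧
    p / n * n + p % n = p :=
  ⟨Nat.mul_div_cancel _ hn, Nat.mul_mod_left _ _, Nat.div_add_mod' p n⟩

theorem climbR {a : ℕ} (ha : a < n ^ k) (hn : 0 < n) : ∀ j, j < k →
    Relation.ReflTransGen (EE k n) (X a) (R true j (a / n ^ j)) := by
  intro j
  induction j with
  | zero =>
    intro hk
    rw [pow_zero, Nat.div_one]
    exact Relation.ReflTransGen.single ⟨E.xr a, ha, ok_block ha hk hn (by simp)⟩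
  | succ j ih =>
    intro hj
    have hj' : j < k := by omega
    have hqp := div_pow_succ (n := n) a j
    obtain ⟨h4, h5⟩ := last_block hn (a / n ^ j)
    rw [← hqp] at h4
    have h6 := (ih hj').trans (rail (R true) (okR true) E.rr j ha hj' hn
      (n - 1 - a / n ^ j % n) (a / n ^ j) hqp h4.symm)
    refine h6.tail ⟨?_, ok_block ha hj' hn h4.symm, ok_block ha hj hn (div_pow_succ a (j + 1))⟩
    have h7 := E.ru (n := n) j _ h5
    rwa [h4] at h7

theorem climbL {a : ℕ} (ha : a < n ^ k) (hn : 0 < n) : ∀ j, j < k →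
    Relation.ReflTransGen (EE k n) (X a) (L true j (a / n ^ j)) := by
  intro j
  induction j with
  | zero =>
    intro hk
    rw [pow_zero, Nat.div_one]
    exact Relation.ReflTransGen.single ⟨E.xl a, ha, ok_block ha hk hn (by simp)⟩
  | succ j ih =>
    intro hj
    have hj' : j < k := by omega
    have hqp := div_pow_succ (n := n) a j
    obtain ⟨h4, h5, h3⟩ := first_block hn (a / n ^ j)
    rw [← hqp] at h4 h5 h3
    have h6 : Relation.ReflTransGen (EE k n) (L true j (a / n ^ j))
        (L true j (a / n ^ (j + 1) * n)) := by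
      have h7 := rail' (k := k) (L true) (okL true) E.ll j ha hj' hn (a / n ^ j % n)
        (a / n ^ (j + 1) * n) h4.symm (by rw [h3]; exact hqp)
      rwa [h3] at h7
    refine ((ih hj').trans h6).tail
      ⟨?_, ok_block ha hj' hn h4.symm, ok_block ha hj hn (div_pow_succ a (j + 1))⟩
    have h7 := E.lu (n := n) j _ h5
    rwa [h4] at h7

theorem descP {a : ℕ} (ha : a < n ^ k) (hn : 0 < n) : ∀ j, j < k →
    Relation.ReflTransGen (EE k n) (L false j (a / n ^ j)) (Y a) := by
  intro j
  induction j with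
  | zero =>
    intro hk
    rw [pow_zero, Nat.div_one]
    exact Relation.ReflTransGen.single ⟨E.py a, ok_block ha hk hn (by simp), ha⟩
  | succ j ih =>
    intro hj
    have hj' : j < k := by omega
    have hqp := div_pow_succ (n := n) a j
    obtain ⟨h4, h5, h3⟩ := first_block hn (a / n ^ j)
    rw [← hqp] at h4 h5 h3
    have h6 : Relation.ReflTransGen (EE k n) (L false j (a / n ^ (j + 1) * n))
        (L false j (a / n ^ j)) := by
      have h7 := rail (k := k) (L false) (okL false) E.pp j ha hj' hn (a / n ^ j % n)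
        (a / n ^ (j + 1) * n) h4.symm (by rw [h3]; exact hqp)
      rwa [h3] at h7
    have h7 := E.pd (n := n) j _ h5
    rw [h4] at h7
    exact Relation.ReflTransGen.head
      ⟨h7, ok_block ha hj hn (div_pow_succ a (j + 1)), ok_block ha hj' hn h4.symm⟩
      (h6.trans (ih hj'))

theorem descQ {a : ℕ} (ha : a < n ^ k) (hn : 0 < n) : ∀ j, j < k →
    Relation.ReflTransGen (EE k n) (R false j (a / n ^ j)) (Y a) := by
  intro j
  induction j with
  | zero =>
    intro hk
    rw [pow_zero, Nat.div_one]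
    exact Relation.ReflTransGen.single ⟨E.qy a, ok_block ha hk hn (by simp), ha⟩
  | succ j ih =>
    intro hj
    have hj' : j < k := by omega
    have hqp := div_pow_succ (n := n) a j
    obtain ⟨h4, h5⟩ := last_block hn (a / n ^ j)
    rw [← hqp] at h4
    have h6 := rail' (k := k) (R false) (okR false) E.qq j ha hj' hn
      (n - 1 - a / n ^ j % n) (a / n ^ j) hqp h4.symm
    have h7 := E.qd (n := n) j _ h5
    rw [h4] at h7
    exact Relation.ReflTransGen.head
      ⟨h7, ok_block ha hj hn (div_pow_succ a (j + 1)), ok_block ha hj' hn h4.symm⟩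
      (h6.trans (ih hj'))

theorem le_XY {a b : ℕ} (ha : a < n ^ k) (hb : b < n ^ k) (hab : a ≠ b) :
    Relation.ReflTransGen (EE k n) (X a) (Y b) := by
  have hn : 0 < n := by
    rcases Nat.eq_zero_or_pos n with h0 | h0
    · exfalso
      subst h0
      rcases Nat.eq_zero_or_pos k with h1 | h1
      · subst h1; simp at ha hb; omega
      · rw [Nat.zero_pow h1] at ha; omega
    · exact h0
  classical
  have hex : ∃ m, a / n ^ m = b / n ^ m := ⟨k, by rw [Nat.div_eq_of_lt ha, Nat.div_eq_of_lt hb]⟩
  obtain ⟨m, hm, hmin⟩ : ∃ m, a / n ^ m = b / n ^ m ∧ ∀ i < m, ¬ a / n ^ i = b / n ^ i :=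
    ⟨Nat.find hex, Nat.find_spec hex, fun i hi => Nat.find_min hex hi⟩
  have hm0 : m ≠ 0 := by
    rintro rfl
    simp at hm
    exact hab hm
  have hmk : m ≤ k := by
    by_contra h
    exact hmin k (by omega) (by rw [Nat.div_eq_of_lt ha, Nat.div_eq_of_lt hb])
  obtain ⟨j, rfl⟩ : ∃ j, m = j + 1 := ⟨m - 1, by omega⟩
  have hj : j < k := by omega
  have hne := hmin j (by omega)
  have e1 := div_pow_succ (n := n) a j
  have e2 := div_pow_succ (n := n) b j
  rcases Nat.lt_or_gt_of_ne hne with h | h
  · obtain ⟨t, ht⟩ : ∃ t, b / n ^ j = a / n ^ j + t + 1 := ⟨b / n ^ j - a / n ^ j - 1, by omega⟩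
    have h1 : a / n ^ (j + 1) = (a / n ^ j + t + 1) / n := by rw [hm, e2, ht]
    have h2 : a / n ^ (j + 1) = (a / n ^ j + t) / n := by
      apply le_antisymm
      · rw [e1]; exact Nat.div_le_div_right (Nat.le_add_right _ _)
      · rw [h1]; exact Nat.div_le_div_right (by omega)
    have h3 : EE k n (R true j (a / n ^ j + t)) (L false j (a / n ^ j + t + 1)) :=
      ⟨E.rp j _ (h1.symm.trans h2), ok_block ha hj hn h2, ok_block ha hj hn h1⟩
    rw [← ht] at h3
    exact (((climbR ha hn j hj).trans (rail (R true) (okR true) E.rr j ha hj hn t _ e1 h2)).tail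
      h3).trans (descP hb hn j hj)
  · obtain ⟨t, ht⟩ : ∃ t, a / n ^ j = b / n ^ j + 1 + t := ⟨a / n ^ j - b / n ^ j - 1, by omega⟩
    have h1 : a / n ^ (j + 1) = (b / n ^ j) / n := by rw [hm, e2]
    have h2 : a / n ^ (j + 1) = (b / n ^ j + 1) / n := by
      apply le_antisymm
      · rw [h1]; exact Nat.div_le_div_right (Nat.le_add_right _ _)
      · rw [e1]; exact Nat.div_le_div_right (by omega)
    have h3 : Relation.ReflTransGen (EE k n) (L true j (a / n ^ j)) (L true j (b / n ^ j + 1)) := by
      have h4 := rail' (k := k) (L true) (okL true) E.ll j ha hj hn t (b / n ^ j + 1) h2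
        (by rw [← ht]; exact e1)
      rwa [← ht] at h4
    have h5 : EE k n (L true j (b / n ^ j + 1)) (R false j (b / n ^ j)) :=
      ⟨E.lq j _ (h2.symm.trans h1), ok_block ha hj hn h2, ok_block ha hj hn h1⟩
    exact (((climbL ha hn j hj).trans h3).tail h5).trans (descQ hb hn j hj)

theorem not_le_XY (a : ℕ) : ¬ Relation.ReflTransGen (EE k n) (X a) (Y a) := by
  intro h
  exact up_le a _ _ h rfl rfl

theorem dim (d : ℕ) (h : DimLE (Kel k n) d) : n ^ k ≤ d := by
  obtain ⟨f, hf⟩ := h
  let x : Fin (n ^ k) → Kel k n := fun a => ⟨X a, a.2⟩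
  let y : Fin (n ^ k) → Kel k n := fun a => ⟨Y a, a.2⟩
  have h1 : ∀ a, ∃ i, f (y a) i < f (x a) i := by
    intro a
    by_contra h
    push Not at h
    exact not_le_XY (k := k) (n := n) a ((hf (x a) (y a)).2 h)
  choose g hg using h1
  have h2 : Function.Injective g := by
    intro a b hab
    by_contra hne
    have hne' : (a : ℕ) ≠ b := fun h => hne (Fin.ext h)
    have h3 : x a ≤ y b := le_XY a.2 b.2 hne'
    have h4 : x b ≤ y a := le_XY b.2 a.2 hne'.symm
    have h5 : f (x a) (g a) ≤ f (y b) (g a) := (hf _ _).1 h3 (g a)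
    have h6 : f (x b) (g a) ≤ f (y a) (g a) := (hf _ _).1 h4 (g a)
    have h7 := hg a
    have h8 := hg b
    rw [← hab] at h8
    omega
  have := Fintype.card_le_of_injective g h2
  simpa using this

/-! ### degrees -/

/-- the pair elements -/
def pt : Bool → ℕ → V
  | true, a => X a
  | false, a => Y a

open Classical in
/-- neighbours -/
noncomputable def nb (n : ℕ) : V → Finset V
  | X a => {R true 0 a, L true 0 a}
  | Y a => {R false 0 a, L false 0 a}
  | R s j B => {R s j (B - 1), if B % n + 1 = n then R s (j + 1) (B / n) else R s j (B + 1),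
      if j = 0 then pt s B else R s (j - 1) (B * n + (n - 1)), L (!s) j (B + 1)}
  | L s j B => {L s j (B + 1), if B % n = 0 then L s (j + 1) (B / n) else L s j (B - 1),
      if j = 0 then pt s B else L s (j - 1) (B * n), R (!s) j (B - 1)}

theorem nb_card (u : V) : (nb n u).card ≤ 4 := by
  classical
  cases u with
  | X a =>
    simp only [nb]
    exact Finset.card_le_two.trans (by omega)
  | Y a =>
    simp only [nb]
    exact Finset.card_le_two.trans (by omega)
  | R s j B =>
    simp only [nb]
    exact Finset.card_le_four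
  | L s j B =>
    simp only [nb]
    exact Finset.card_le_four

theorem div_mul_last {B : ℕ} (h : B % n + 1 = n) : B / n * n + (n - 1) = B := by
  have h1 := Nat.div_add_mod' B n
  omega

theorem div_mul_first {B : ℕ} (h : B % n = 0) : B / n * n = B := by
  have h1 := Nat.div_add_mod' B n
  omega

/-- not last -/
theorem not_last {B : ℕ} (hn : 0 < n) (h : (B + 1) / n = B / n) : ¬ B % n + 1 = n := by
  have h1 := mod_succ h
  have h2 := Nat.mod_lt (B + 1) hn
  omega

/-- not first -/
theorem not_first {B : ℕ} (h : (B + 1) / n = B / n) : ¬ (B + 1) % n = 0 := by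
  have h1 := mod_succ h
  omega

theorem nb_out (u v : V) (h : EE k n u v) : v ∈ nb n u := by
  obtain ⟨hE, hu, hv⟩ := h
  cases hE with
  | xr a => simp [nb]
  | xl a => simp [nb]
  | rr j B hB => simp [nb, not_last (n_pos hu) hB]
  | ll j B hB => simp [nb, not_first hB]
  | ru j B hB => simp [nb, hB]
  | lu j B hB => simp [nb, hB]
  | rp j B hB => simp [nb]
  | lq j B hB => simp [nb]
  | pp j B hB => simp [nb]
  | qq j B hB => simp [nb]
  | pd j B hB => simp [nb, div_mul_first hB]
  | qd j B hB => simp [nb, div_mul_last hB]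
  | py a => simp [nb, pt]
  | qy a => simp [nb, pt]

theorem nb_in (u v : V) (h : EE k n u v) : u ∈ nb n v := by
  obtain ⟨hE, hu, hv⟩ := h
  cases hE with
  | xr a => simp [nb, pt]
  | xl a => simp [nb, pt]
  | rr j B hB => simp [nb]
  | ll j B hB => simp [nb]
  | ru j B hB => simp [nb, div_mul_last hB]
  | lu j B hB => simp [nb, div_mul_first hB]
  | rp j B hB => simp [nb]
  | lq j B hB => simp [nb]
  | pp j B hB => simp [nb, not_first hB]
  | qq j B hB => simp [nb, not_last (n_pos hu) hB]
  | pd j B hB => simp [nb, hB]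
  | qd j B hB => simp [nb, hB]
  | py a => simp [nb]
  | qy a => simp [nb]

theorem degree : DegreeLE (cov (Kel k n)) 4 := by
  classical
  intro v
  refine ⟨Finset.univ.filter (fun u : Kel k n => u.1 ∈ nb n v.1), ?_, fun u hu => ?_⟩
  · refine le_trans ?_ (nb_card (n := n) v.1)
    apply Finset.card_le_card_of_injOn (fun u : Kel k n => u.1)
    · intro u hu
      exact (Finset.mem_filter.1 (Finset.mem_coe.1 hu)).2
    · intro u _ w _ huw
      exact Subtype.ext huw
  · rw [Finset.mem_filter]
    refine ⟨Finset.mem_univ _, ?_⟩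
    rcases adj_EE _ _ hu with h | h
    · exact nb_out _ _ h
    · exact nb_in _ _ h

end Kel

end Pool.Agent.Helper23.ND
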