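import Pool.Agent.Helper23.ND.Kelly

/-!
# Posets of large dimension with cover graph of maximum degree 4: the path decomposition
-/

set_option autoImplicit false

namespace Pool.Agent.Helper23.ND

open Pool.Agent.Helper66.PD (cov HeightLE PathWidthLE DimLE DegreeLE)

namespace Kel

open V

variable {k n : ℕ}

/-- length of the interval of a rail element -/
def wd (k n j : ℕ) (c : Prop) [Decidable c] : ℕ := if c then 1 else (4 * k) * n ^ j

/-- base phase of the rails which start at the end of their block -/
def cR (k : ℕ) (s : Bool) : ℕ := if s = true then 3 * k + 1 else k + 1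

/-- base phase of the rails which end at the start of their block -/
def cL (k : ℕ) (s : Bool) : ℕ := if s = true then 3 * k else k

theorem cR_cases (k : ℕ) (s : Bool) : (s = true ∧ cR k s = 3 * k + 1 ∧ cL k s = 3 * k) ∨
    (s = false ∧ cR k s = k + 1 ∧ cL k s = k) := by
  cases s
  · right; simp [cR, cL]
  · left; simp [cR, cL]

/-- first bag of an element -/
def lo (k n : ℕ) : V → ℕ
  | X a => (4 * k) * a + 3 * k
  | Y a => (4 * k) * a + k
  | R s j B => (4 * k) * ((B + 1) * n ^ j - 1) + cR k s + j
  | L s j B => (4 * k) * (B * n ^ j) + cL k s - j - wd k n j (B % n = 0)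

/-- last bag of an element -/
def hi (k n : ℕ) : V → ℕ
  | X a => (4 * k) * a + 3 * k + 1
  | Y a => (4 * k) * a + k + 1
  | R s j B => (4 * k) * ((B + 1) * n ^ j - 1) + cR k s + j + wd k n j (B % n + 1 = n)
  | L s j B => (4 * k) * (B * n ^ j) + cL k s - j

theorem wd_pos (j : ℕ) (c : Prop) [Decidable c] (hk : 0 < k) (hn : 0 < n) : 1 ≤ wd k n j c := by
  unfold wd
  split_ifs
  · exact le_rfl
  · exact Nat.mul_pos (by omega) (Nat.pow_pos hn)

theorem wd_le (j : ℕ) (c : Prop) [Decidable c] (hk : 0 < k) (hn : 0 < n) :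
    wd k n j c ≤ (4 * k) * n ^ j := by
  unfold wd
  split_ifs
  · exact Nat.mul_pos (by omega) (Nat.pow_pos hn)
  · exact le_rfl

/-- the start of the interval of a rail of the first kind, without subtraction -/
theorem lo_R {s : Bool} {j B : ℕ} (hn : 0 < n) :
    lo k n (R s j B) + 4 * k = (4 * k) * ((B + 1) * n ^ j) + cR k s + j := by
  have h1 : 1 ≤ (B + 1) * n ^ j := Nat.mul_pos (by omega) (Nat.pow_pos hn)
  obtain ⟨t, ht⟩ : ∃ t, (B + 1) * n ^ j = t + 1 := ⟨_, (Nat.sub_add_cancel h1).symm⟩
  simp only [lo]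
  rw [ht, Nat.add_sub_cancel]
  ring

theorem hi_R {s : Bool} {j B : ℕ} :
    hi k n (R s j B) = lo k n (R s j B) + wd k n j (B % n + 1 = n) := rfl

theorem hi_L {s : Bool} {j B : ℕ} (hj : j < k) :
    hi k n (L s j B) + j = (4 * k) * (B * n ^ j) + cL k s := by
  simp only [hi]
  rcases cR_cases k s with ⟨-, -, h⟩ | ⟨-, -, h⟩ <;> omega

theorem lo_L {s : Bool} {j B : ℕ} (hj : j < k) (hn : 0 < n) :
    lo k n (L s j B) + wd k n j (B % n = 0) = hi k n (L s j B) := by
  have h1 : wd k n j (B % n = 0) ≤ (4 * k) * (B * n ^ j) + cL k s - j := by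
    by_cases h : B % n = 0
    · unfold wd
      rw [if_pos h]
      rcases cR_cases k s with ⟨-, -, h⟩ | ⟨-, -, h⟩ <;> omega
    · have h2 : 0 < B := by
        rcases Nat.eq_zero_or_pos B with h0 | h0
        · exact absurd (by rw [h0]; exact Nat.zero_mod n) h
        · exact h0
      have h3 := wd_le (k := k) (n := n) j (B % n = 0) (by omega) hn
      have h4 : (4 * k) * n ^ j ≤ (4 * k) * (B * n ^ j) :=
        Nat.mul_le_mul_left _ (Nat.le_mul_of_pos_left _ h2)
      rcases cR_cases k s with ⟨-, -, h⟩ | ⟨-, -, h⟩ <;> omega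
  simp only [lo, hi]
  omega

theorem lo_le_hi (u : V) (h : ok k n u) : lo k n u ≤ hi k n u := by
  cases u with
  | X a => simp only [lo, hi]; omega
  | Y a => simp only [lo, hi]; omega
  | R s j B => rw [hi_R]; omega
  | L s j B =>
    have := lo_L (k := k) (n := n) (s := s) (B := B) h.1 (n_pos h)
    omega

theorem wd_R {j B : ℕ} (h : (B + 1) / n = B / n) (hn : 0 < n) :
    wd k n j (B % n + 1 = n) = (4 * k) * n ^ j := by
  unfold wd
  rw [if_neg (not_last hn h)]

theorem wd_L {j B : ℕ} (h : (B + 1) / n = B / n) :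
    wd k n j ((B + 1) % n = 0) = (4 * k) * n ^ j := by
  unfold wd
  rw [if_neg (not_first h)]

/-- the intervals of two elements meet -/
def Mt (k n : ℕ) (u v : V) : Prop := lo k n u ≤ hi k n v ∧ lo k n v ≤ hi k n u

theorem Mt_symm {u v : V} (h : Mt k n u v) : Mt k n v u := ⟨h.2, h.1⟩

theorem mt_RR (s : Bool) (j B : ℕ) (h : j < k ∧ B < n ^ (k - j)) (hB : (B + 1) / n = B / n) :
    Mt k n (R s j B) (R s j (B + 1)) := by
  have hn := n_pos h
  have h1 := lo_R (k := k) (n := n) (s := s) (j := j) (B := B) hn
  have h2 := lo_R (k := k) (n := n) (s := s) (j := j) (B := B + 1) hn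
  have h3 : (4 * k) * ((B + 1 + 1) * n ^ j) =
    (4 * k) * ((B + 1) * n ^ j) + (4 * k) * n ^ j := by ring
  unfold Mt
  rw [hi_R, hi_R, wd_R hB hn]
  omega

theorem mt_LL (s : Bool) (j B : ℕ) (h : j < k) (hn : 0 < n) (hB : (B + 1) / n = B / n) :
    Mt k n (L s j B) (L s j (B + 1)) := by
  have h1 := hi_L (k := k) (n := n) (s := s) (j := j) (B := B) h
  have h2 := hi_L (k := k) (n := n) (s := s) (j := j) (B := B + 1) h
  have h5 := lo_L (k := k) (n := n) (s := s) (j := j) (B := B) h hn
  have h6 := lo_L (k := k) (n := n) (s := s) (j := j) (B := B + 1) h hn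
  rw [wd_L hB] at h6
  have h3 : (4 * k) * ((B + 1) * n ^ j) = (4 * k) * (B * n ^ j) + (4 * k) * n ^ j := by ring
  unfold Mt
  omega

theorem mt_RU (s : Bool) (j B : ℕ) (hn : 0 < n) (hB : B % n + 1 = n) :
    Mt k n (R s j B) (R s (j + 1) (B / n)) := by
  have h1 := lo_R (k := k) (n := n) (s := s) (j := j) (B := B) hn
  have h2 := lo_R (k := k) (n := n) (s := s) (j := j + 1) (B := B / n) hn
  have h5 : n * (B / n) + n = B + 1 := by
    have := Nat.div_add_mod B n
    omega
  have h3 : (4 * k) * ((B / n + 1) * n ^ (j + 1)) = (4 * k) * ((B + 1) * n ^ j) := by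
    rw [← h5]; ring
  have h4 : wd k n j (B % n + 1 = n) = 1 := by unfold wd; rw [if_pos hB]
  unfold Mt
  rw [hi_R, hi_R, h4]
  omega

theorem mt_LU (s : Bool) (j B : ℕ) (h : j + 1 < k) (hn : 0 < n) (hB : B % n = 0) :
    Mt k n (L s j B) (L s (j + 1) (B / n)) := by
  have h1 := hi_L (k := k) (n := n) (s := s) (j := j) (B := B) (by omega)
  have h2 := hi_L (k := k) (n := n) (s := s) (j := j + 1) (B := B / n) h
  have h5 := lo_L (k := k) (n := n) (s := s) (j := j) (B := B) (by omega) hn
  have h6 := lo_L (k := k) (n := n) (s := s) (j := j + 1) (B := B / n) h hn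
  have h4 : wd k n j (B % n = 0) = 1 := by unfold wd; rw [if_pos hB]
  have h7 : n * (B / n) = B := by
    have := Nat.div_add_mod B n
    omega
  have h3 : (4 * k) * (B / n * n ^ (j + 1)) = (4 * k) * (B * n ^ j) := by
    conv_rhs => rw [← h7]
    ring
  rw [h4] at h5
  unfold Mt
  omega

theorem mt_RL (s : Bool) (j B : ℕ) (h : j < k) (hn : 0 < n) (hB : (B + 1) / n = B / n) :
    Mt k n (R s j B) (L (!s) j (B + 1)) := by
  have h1 := lo_R (k := k) (n := n) (s := s) (j := j) (B := B) hn
  have h2 := hi_L (k := k) (n := n) (s := !s) (j := j) (B := B + 1) h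
  have h5 := lo_L (k := k) (n := n) (s := !s) (j := j) (B := B + 1) h hn
  rw [wd_L hB] at h5
  have h6 : 0 < n ^ j := Nat.pow_pos hn
  have h7 : (4 * k) * 1 ≤ (4 * k) * n ^ j := Nat.mul_le_mul_left _ h6
  unfold Mt
  rw [hi_R, wd_R hB hn]
  cases s
  · have e1 : cR k false = k + 1 := rfl
    have e2 : cL k (!false) = 3 * k := rfl
    omega
  · have e1 : cR k true = 3 * k + 1 := rfl
    have e2 : cL k (!true) = k := rfl
    omega

/-- the intervals of the ends of an edge meet -/
theorem meet (u v : V) (h : EE k n u v) : Mt k n u v := by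
  obtain ⟨hE, hu, hv⟩ := h
  cases hE with
  | xr a =>
    have hn := n_pos hv
    have h1 := lo_R (k := k) (n := n) (s := true) (j := 0) (B := a) hn
    have h2 : (4 * k) * ((a + 1) * n ^ 0) = (4 * k) * a + 4 * k := by ring
    have h3 : hi k n (X a) = (4 * k) * a + 3 * k + 1 := rfl
    have h4 : lo k n (X a) = (4 * k) * a + 3 * k := rfl
    have h5 : cR k true = 3 * k + 1 := rfl
    unfold Mt
    rw [hi_R]
    omega
  | xl a =>
    have hn := n_pos hv
    have h1 := hi_L (k := k) (n := n) (s := true) (j := 0) (B := a) hv.1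
    have h5 := lo_L (k := k) (n := n) (s := true) (j := 0) (B := a) hv.1 hn
    have h2 : (4 * k) * (a * n ^ 0) = (4 * k) * a := by ring
    have h3 : hi k n (X a) = (4 * k) * a + 3 * k + 1 := rfl
    have h4 : lo k n (X a) = (4 * k) * a + 3 * k := rfl
    have h6 : cL k true = 3 * k := rfl
    unfold Mt
    omega
  | rr j B hB => exact mt_RR true j B hu hB
  | ll j B hB => exact Mt_symm (mt_LL true j B hu.1 (n_pos hu) hB)
  | ru j B hB => exact mt_RU true j B (n_pos hu) hB
  | lu j B hB => exact mt_LU true j B hv.1 (n_pos hu) hB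
  | rp j B hB => exact mt_RL true j B hu.1 (n_pos hu) hB
  | lq j B hB => exact Mt_symm (mt_RL false j B hu.1 (n_pos hu) hB)
  | pp j B hB => exact mt_LL false j B hu.1 (n_pos hu) hB
  | qq j B hB => exact Mt_symm (mt_RR false j B hv hB)
  | pd j B hB => exact Mt_symm (mt_LU false j B hu.1 (n_pos hu) hB)
  | qd j B hB => exact Mt_symm (mt_RU false j B (n_pos hu) hB)
  | py a =>
    have hn := n_pos hu
    have h1 := hi_L (k := k) (n := n) (s := false) (j := 0) (B := a) hu.1
    have h5 := lo_L (k := k) (n := n) (s := false) (j := 0) (B := a) hu.1 hn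
    have h2 : (4 * k) * (a * n ^ 0) = (4 * k) * a := by ring
    have h3 : hi k n (Y a) = (4 * k) * a + k + 1 := rfl
    have h4 : lo k n (Y a) = (4 * k) * a + k := rfl
    have h6 : cL k false = k := rfl
    unfold Mt
    omega
  | qy a =>
    have hn := n_pos hu
    have h1 := lo_R (k := k) (n := n) (s := false) (j := 0) (B := a) hn
    have h2 : (4 * k) * ((a + 1) * n ^ 0) = (4 * k) * a + 4 * k := by ring
    have h3 : hi k n (Y a) = (4 * k) * a + k + 1 := rfl
    have h4 : lo k n (Y a) = (4 * k) * a + k := rfl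
    have h5 : cR k false = k + 1 := rfl
    unfold Mt
    rw [hi_R]
    omega

/-! ### the number of elements in a bag -/

/-- the slot of an element at the time `t` -/
def slot (k n t : ℕ) : V → ℕ
  | X _ => 4 * k
  | Y _ => if k = 0 then 1 else 4 * k
  | R s j B => if t = lo k n (R s j B) then 4 * k + 1 else if s = true then j else k + j
  | L s j B => if t = hi k n (L s j B) then 4 * k + 1 else if s = true then 2 * k + j
      else 3 * k + j

/-- uniqueness of quotient and phase -/
theorem phase {D q q' p p' : ℕ} (hp : 1 ≤ p) (hp' : 1 ≤ p') (hD : p ≤ D) (hD' : p' ≤ D)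
    (h : D * q + p = D * q' + p') : q = q' ∧ p = p' := by
  rcases lt_trichotomy q q' with h1 | h1 | h1
  · have h2 : D * (q + 1) ≤ D * q' := Nat.mul_le_mul_left _ h1
    have h3 : D * (q + 1) = D * q + D := by ring
    omega
  · subst h1
    exact ⟨rfl, by omega⟩
  · have h2 : D * (q' + 1) ≤ D * q := Nat.mul_le_mul_left _ h1
    have h3 : D * (q' + 1) = D * q' + D := by ring
    omega

/-- data of the last slot: quotient and phase of the time -/
def zq (k n : ℕ) : V → ℕ × ℕ
  | X a => (a, 0)
  | Y a => (a, 0)
  | R s j B => ((B + 1) * n ^ j, cR k s + j)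
  | L s j B => (B * n ^ j + 1, cL k s - j)

theorem slot_lt (t : ℕ) (u : V) (h : ok k n u) : slot k n t u < 4 * k + 2 := by
  cases u with
  | X a => simp only [slot]; omega
  | Y a => simp only [slot]; split_ifs <;> omega
  | R s j B =>
    have := h.1
    simp only [slot]
    split_ifs <;> omega
  | L s j B =>
    have := h.1
    simp only [slot]
    split_ifs <;> omega

/-- representation of the time by the elements of the last slot -/
theorem zq_rep (hk : 0 < k) (t : ℕ) (u : V) (h : ok k n u)
    (h3 : slot k n t u = 4 * k + 1) :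
    t + 4 * k = (4 * k) * (zq k n u).1 + (zq k n u).2 ∧ 1 ≤ (zq k n u).2 ∧
      (zq k n u).2 ≤ 4 * k := by
  cases u with
  | X a => simp only [slot] at h3; omega
  | Y a =>
    simp only [slot, if_neg (show ¬ k = 0 by omega)] at h3
    omega
  | R s j B =>
    have hn := n_pos h
    have h4 := lo_R (k := k) (n := n) (s := s) (j := j) (B := B) hn
    have hj := h.1
    have h5 : t = lo k n (R s j B) := by
      by_contra h6
      simp only [slot, if_neg h6] at h3
      split_ifs at h3 <;> omega
    simp only [zq]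
    rcases cR_cases k s with ⟨-, h, -⟩ | ⟨-, h, -⟩ <;> omega
  | L s j B =>
    have h4 := hi_L (k := k) (n := n) (s := s) (j := j) (B := B) h.1
    have hj := h.1
    have h5 : t = hi k n (L s j B) := by
      by_contra h6
      simp only [slot, if_neg h6] at h3
      split_ifs at h3 <;> omega
    have h6 : (4 * k) * (B * n ^ j + 1) = (4 * k) * (B * n ^ j) + 4 * k := by ring
    simp only [zq]
    rcases cR_cases k s with ⟨-, -, h⟩ | ⟨-, -, h⟩ <;> omega

theorem zq_inj (u v : V) (hu : ok k n u) (hv : ok k n v) (hu' : 1 ≤ (zq k n u).2)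
    (h : (zq k n u).1 = (zq k n v).1) (h' : (zq k n u).2 = (zq k n v).2) : u = v := by
  cases u with
  | X a => simp only [zq] at hu'; omega
  | Y a => simp only [zq] at hu'; omega
  | R s j B =>
    have hn := n_pos hu
    have hj := hu.1
    cases v with
    | X b => simp only [zq] at h' hu'; omega
    | Y b => simp only [zq] at h' hu'; omega
    | R r i C =>
      have hi' := hv.1
      simp only [zq] at h h'
      obtain ⟨rfl, rfl⟩ : s = r ∧ j = i := by
        rcases cR_cases k s with ⟨a1, a2, -⟩ | ⟨a1, a2, -⟩ <;>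
          rcases cR_cases k r with ⟨b1, b2, -⟩ | ⟨b1, b2, -⟩
        · exact ⟨a1.trans b1.symm, by omega⟩
        · exfalso; omega
        · exfalso; omega
        · exact ⟨a1.trans b1.symm, by omega⟩
      have h1 : B + 1 = C + 1 := Nat.eq_of_mul_eq_mul_right (Nat.pow_pos hn) h
      rw [show B = C by omega]
    | L r i C =>
      have hi' := hv.1
      simp only [zq] at h'
      exfalso
      rcases cR_cases k s with ⟨-, a2, -⟩ | ⟨-, a2, -⟩ <;>
        rcases cR_cases k r with ⟨-, -, b2⟩ | ⟨-, -, b2⟩ <;> omega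
  | L s j B =>
    have hn := n_pos hu
    have hj := hu.1
    cases v with
    | X b => simp only [zq] at h' hu'; omega
    | Y b => simp only [zq] at h' hu'; omega
    | R r i C =>
      have hi' := hv.1
      simp only [zq] at h'
      exfalso
      rcases cR_cases k s with ⟨-, -, a2⟩ | ⟨-, -, a2⟩ <;>
        rcases cR_cases k r with ⟨-, b2, -⟩ | ⟨-, b2, -⟩ <;> omega
    | L r i C =>
      have hi' := hv.1
      simp only [zq] at h h'
      obtain ⟨rfl, rfl⟩ : s = r ∧ j = i := by
        rcases cR_cases k s with ⟨a1, -, a2⟩ | ⟨a1, -, a2⟩ <;>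
          rcases cR_cases k r with ⟨b1, -, b2⟩ | ⟨b1, -, b2⟩
        · exact ⟨a1.trans b1.symm, by omega⟩
        · exfalso; omega
        · exfalso; omega
        · exact ⟨a1.trans b1.symm, by omega⟩
      have h3 : B * n ^ j = C * n ^ j := by omega
      rw [Nat.eq_of_mul_eq_mul_right (Nat.pow_pos hn) h3]

/-- blocks of a rail of the first kind which are alive after their start -/
theorem R_inj {s : Bool} {t j B C : ℕ} (h : j < k ∧ B < n ^ (k - j)) (h1 : lo k n (R s j C) < t)
    (h2 : t ≤ hi k n (R s j B)) : C ≤ B := by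
  by_contra hlt
  have hn := n_pos h
  have e1 := lo_R (k := k) (n := n) (s := s) (j := j) (B := B) hn
  have e2 := lo_R (k := k) (n := n) (s := s) (j := j) (B := C) hn
  have e3 := wd_le (k := k) (n := n) j (B % n + 1 = n) (by omega) hn
  have e4 : (B + 2) * n ^ j ≤ (C + 1) * n ^ j := Nat.mul_le_mul_right _ (by omega)
  have e5 : (4 * k) * ((B + 2) * n ^ j) ≤ (4 * k) * ((C + 1) * n ^ j) :=
    Nat.mul_le_mul_left _ e4
  have e6 : (4 * k) * ((B + 2) * n ^ j) =
    (4 * k) * ((B + 1) * n ^ j) + (4 * k) * n ^ j := by ring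
  rw [hi_R] at h2
  omega

/-- blocks of a rail of the second kind which are alive before their end -/
theorem L_inj {s : Bool} {t j B C : ℕ} (h : j < k ∧ C < n ^ (k - j)) (h1 : lo k n (L s j C) ≤ t)
    (h2 : t < hi k n (L s j B)) : C ≤ B := by
  by_contra hlt
  have hn := n_pos h
  have e1 := hi_L (k := k) (n := n) (s := s) (j := j) (B := B) h.1
  have e2 := hi_L (k := k) (n := n) (s := s) (j := j) (B := C) h.1
  have e7 := lo_L (k := k) (n := n) (s := s) (j := j) (B := C) h.1 hn
  have e3 := wd_le (k := k) (n := n) j (C % n = 0) (by omega) hn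
  have e4 : (B + 1) * n ^ j ≤ C * n ^ j := Nat.mul_le_mul_right _ (by omega)
  have e5 : (4 * k) * ((B + 1) * n ^ j) ≤ (4 * k) * (C * n ^ j) :=
    Nat.mul_le_mul_left _ e4
  have e6 : (4 * k) * ((B + 1) * n ^ j) =
    (4 * k) * (B * n ^ j) + (4 * k) * n ^ j := by ring
  omega

theorem near {D t a b c : ℕ} (hD : 2 ≤ D) (h1 : D * b + c ≤ t) (h2 : t ≤ D * a + c + 1) :
    b ≤ a := by
  by_contra hlt
  have e1 : D * (a + 1) ≤ D * b := Nat.mul_le_mul_left _ (by omega)
  have e2 : D * (a + 1) = D * a + D := by ring
  omega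

theorem XY_ne (hk : 0 < k) {t a b : ℕ} (h1 : lo k n (X a) ≤ t) (h2 : t ≤ hi k n (X a))
    (h3 : lo k n (Y b) ≤ t) (h4 : t ≤ hi k n (Y b)) : False := by
  simp only [lo, hi] at h1 h2 h3 h4
  rcases Nat.lt_or_ge a b with h | h
  · have e1 : (4 * k) * (a + 1) ≤ (4 * k) * b := Nat.mul_le_mul_left _ h
    have e2 : (4 * k) * (a + 1) = (4 * k) * a + 4 * k := by ring
    omega
  · have e1 : (4 * k) * b ≤ (4 * k) * a := Nat.mul_le_mul_left _ h
    omega

/-- different elements of a bag have different slots -/
theorem slot_inj (t : ℕ) (u v : V) (hu : ok k n u) (hv : ok k n v)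
    (h1 : lo k n u ≤ t) (h2 : t ≤ hi k n u) (h3 : lo k n v ≤ t) (h4 : t ≤ hi k n v)
    (h : slot k n t u = slot k n t v) : u = v := by
  rcases Nat.eq_zero_or_pos k with hk | hk
  · subst hk
    cases u with
    | X a =>
      have ha : a < n ^ 0 := hu
      cases v with
      | X b =>
        have hb : b < n ^ 0 := hv
        simp at ha hb
        rw [ha, hb]
      | Y b => simp [slot] at h
      | R s j B => exact absurd hv.1 (Nat.not_lt_zero _)
      | L s j B => exact absurd hv.1 (Nat.not_lt_zero _)
    | Y a =>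
      have ha : a < n ^ 0 := hu
      cases v with
      | X b => simp [slot] at h
      | Y b =>
        have hb : b < n ^ 0 := hv
        simp at ha hb
        rw [ha, hb]
      | R s j B => exact absurd hv.1 (Nat.not_lt_zero _)
      | L s j B => exact absurd hv.1 (Nat.not_lt_zero _)
    | R s j B => exact absurd hu.1 (Nat.not_lt_zero _)
    | L s j B => exact absurd hu.1 (Nat.not_lt_zero _)
  · have hk' : ¬ k = 0 := by omega
    by_cases h5 : slot k n t u = 4 * k + 1
    · obtain ⟨a1, a2, a3⟩ := zq_rep hk t u hu h5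
      obtain ⟨b1, b2, b3⟩ := zq_rep hk t v hv (h ▸ h5)
      obtain ⟨c1, c2⟩ := phase a2 b2 a3 b3 (a1.symm.trans b1)
      exact zq_inj u v hu hv a2 c1 c2
    · have h6 : slot k n t v ≠ 4 * k + 1 := h ▸ h5
      cases u with
      | X a =>
        cases v with
        | X b =>
          rw [le_antisymm (near (by omega) h1 h4) (near (by omega) h3 h2)]
        | Y b => exact (XY_ne hk h1 h2 h3 h4).elim
        | R s j B =>
          have := hv.1
          simp only [slot] at h h6
          split_ifs at h h6 <;> omega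
        | L s j B =>
          have := hv.1
          simp only [slot] at h h6
          split_ifs at h h6 <;> omega
      | Y a =>
        cases v with
        | X b => exact (XY_ne hk h3 h4 h1 h2).elim
        | Y b =>
          rw [le_antisymm (near (by omega) h1 h4) (near (by omega) h3 h2)]
        | R s j B =>
          have := hv.1
          simp only [slot, if_neg hk'] at h h6
          split_ifs at h h6 <;> omega
        | L s j B =>
          have := hv.1
          simp only [slot, if_neg hk'] at h h6
          split_ifs at h h6 <;> omega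
      | R r i C =>
        have hi' := hu.1
        cases v with
        | X b =>
          simp only [slot] at h h5
          split_ifs at h h5 <;> omega
        | Y b =>
          simp only [slot, if_neg hk'] at h h5
          split_ifs at h h5 <;> omega
        | R s j B =>
          have hj' := hv.1
          simp only [slot] at h h5 h6
          have g1 : ¬ t = lo k n (R r i C) := by
            intro g; rw [if_pos g] at h5; exact h5 rfl
          have g2 : ¬ t = lo k n (R s j B) := by
            intro g; rw [if_pos g] at h6; exact h6 rfl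
          rw [if_neg g1, if_neg g2] at h
          obtain ⟨rfl, rfl⟩ : r = s ∧ i = j := by
            cases r <;> cases s <;> simp at h ⊢ <;> omega
          rw [le_antisymm (R_inj hv (by omega) h4) (R_inj hu (by omega) h2)]
        | L s j B =>
          have hj' := hv.1
          simp only [slot] at h h5 h6
          split_ifs at h h5 h6 <;> omega
      | L r i C =>
        have hi' := hu.1
        cases v with
        | X b =>
          simp only [slot] at h h5
          split_ifs at h h5 <;> omega
        | Y b =>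
          simp only [slot, if_neg hk'] at h h5
          split_ifs at h h5 <;> omega
        | R s j B =>
          have hj' := hv.1
          simp only [slot] at h h5 h6
          split_ifs at h h5 h6 <;> omega
        | L s j B =>
          have hj' := hv.1
          simp only [slot] at h h5 h6
          have g1 : ¬ t = hi k n (L r i C) := by
            intro g; rw [if_pos g] at h5; exact h5 rfl
          have g2 : ¬ t = hi k n (L s j B) := by
            intro g; rw [if_pos g] at h6; exact h6 rfl
          rw [if_neg g1, if_neg g2] at h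
          obtain ⟨rfl, rfl⟩ : r = s ∧ i = j := by
            cases r <;> cases s <;> simp at h ⊢ <;> omega
          rw [le_antisymm (L_inj hu h1 (by omega)) (L_inj hv h3 (by omega))]

theorem path_width : PathWidthLE (cov (Kel k n)) (4 * k + 1) := by
  classical
  refine ⟨(Finset.univ.sup fun u : Kel k n => hi k n u.1) + 1,
    fun t => Finset.univ.filter (fun u : Kel k n => lo k n u.1 ≤ t ∧ (t : ℕ) ≤ hi k n u.1),
    ?_, ?_, ?_, ?_⟩
  · intro v
    have h1 : lo k n v.1 ≤ Finset.univ.sup fun u : Kel k n => hi k n u.1 :=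
      (lo_le_hi v.1 v.2).trans
        (Finset.le_sup (f := fun u : Kel k n => hi k n u.1) (Finset.mem_univ v))
    refine ⟨⟨lo k n v.1, Nat.lt_succ_of_le h1⟩, ?_⟩
    rw [Finset.mem_filter]
    exact ⟨Finset.mem_univ _, le_rfl, lo_le_hi v.1 v.2⟩
  · intro u v huv
    have hm : lo k n u.1 ≤ hi k n v.1 ∧ lo k n v.1 ≤ hi k n u.1 := by
      rcases adj_EE u v huv with h | h
      · exact meet _ _ h
      · exact (meet _ _ h).symm
    have hu := lo_le_hi u.1 u.2
    have hv := lo_le_hi v.1 v.2
    have h1 : max (lo k n u.1) (lo k n v.1) ≤ Finset.univ.sup fun u : Kel k n => hi k n u.1 :=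
      (max_le hu hm.2).trans
        (Finset.le_sup (f := fun u : Kel k n => hi k n u.1) (Finset.mem_univ u))
    refine ⟨⟨max (lo k n u.1) (lo k n v.1), Nat.lt_succ_of_le h1⟩, ?_, ?_⟩
    · rw [Finset.mem_filter]
      exact ⟨Finset.mem_univ _, le_max_left _ _, max_le hu hm.2⟩
    · rw [Finset.mem_filter]
      exact ⟨Finset.mem_univ _, le_max_right _ _, max_le hm.1 hv⟩
  · intro i j l v hij hjl hi' hl
    rw [Finset.mem_filter] at hi' hl ⊢
    have a1 : (i : ℕ) ≤ j := hij
    have a2 : (j : ℕ) ≤ l := hjl
    exact ⟨Finset.mem_univ _, hi'.2.1.trans a1, a2.trans hl.2.2⟩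
  · intro t
    have h1 : (Finset.univ.filter
        (fun u : Kel k n => lo k n u.1 ≤ t ∧ (t : ℕ) ≤ hi k n u.1)).card ≤
        (Finset.range (4 * k + 2)).card := by
      apply Finset.card_le_card_of_injOn (fun u : Kel k n => slot k n t u.1)
      · intro u _
        exact Finset.mem_coe.2 (Finset.mem_range.2 (slot_lt t u.1 u.2))
      · intro u hu v hv huv
        have hu' := (Finset.mem_filter.1 (Finset.mem_coe.1 hu)).2
        have hv' := (Finset.mem_filter.1 (Finset.mem_coe.1 hv)).2
        exact Subtype.ext (slot_inj t u.1 v.1 u.2 v.2 hu'.1 hu'.2 hv'.1 hv'.2 huv)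
    rwa [Finset.card_range] at h1

end Kel

/-- For all `k` and `n` there is a finite poset in which all chains have at most
`(2 * k - 1) * n + 2` elements, whose cover graph has maximum degree at most `4` and path-width at
most `4 * k + 1` and whose dimension is at least `n ^ k`. -/
theorem degree_four_lower : ∀ k n : ℕ, ∃ (P : Type) (_ : PartialOrder P) (_ : Fintype P),
    HeightLE P ((2 * k - 1) * n + 2) ∧ PathWidthLE (cov P) (4 * k + 1) ∧
      DegreeLE (cov P) 4 ∧ ∀ d : ℕ, DimLE P d → n ^ k ≤ d :=
  fun k n => ⟨Kel k n, inferInstance, inferInstance, Kel.height, Kel.path_width, Kel.degree,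
    Kel.dim⟩

end Pool.Agent.Helper23.ND
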